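import Pool.Agent.V11241.Roth

/-!
# A Rothberger space which is not omega-Rothberger, in ZFC

The space is the sum of two copies of Moore's L space, the second one shifted by one half of the
circle below the diagonal.
-/

namespace Pool.Agent.Results.MP_f9bcb0_lc.RothbergerNotOmega

open Filter Topology Set
open Pool.Agent.Results.MP_b9a716_gt.MooreLSpace Pool.Agent.V11241.Roth

/-- `C` is an open cover of the space `X`. -/
def IsOpenCov (X : Type) [TopologicalSpace X] (C : Set (Set X)) : Prop :=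
  (∀ U ∈ C, IsOpen U) ∧ ⋃₀ C = Set.univ

/-- `C` is an ω-cover of the space `X`: an open cover, `X` is not a member of `C`, and every finite
subset of `X` is contained in some member of `C`. -/
def IsOmegaCov (X : Type) [TopologicalSpace X] (C : Set (Set X)) : Prop :=
  IsOpenCov X C ∧ Set.univ ∉ C ∧ ∀ F : Set X, F.Finite → ∃ U ∈ C, F ⊆ U

/-- `X` is Rothberger: from each sequence of open covers one can select one member each so that
the selected sets cover `X`. -/
def IsRothberger (X : Type) [TopologicalSpace X] : Prop :=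
  ∀ C : ℕ → Set (Set X), (∀ n, IsOpenCov X (C n)) →
    ∃ U : ℕ → Set X, (∀ n, U n ∈ C n) ∧ IsOpenCov X (Set.range U)

/-- `X` is ω-Rothberger: from each sequence of ω-covers one can select one member each so that
the selected sets form an ω-cover of `X`. -/
def IsOmegaRothberger (X : Type) [TopologicalSpace X] : Prop :=
  ∀ C : ℕ → Set (Set X), (∀ n, IsOmegaCov X (C n)) →
    ∃ U : ℕ → Set X, (∀ n, U n ∈ C n) ∧ IsOmegaCov X (Set.range U)

variable {W : Type} [LinearOrder W] [OrderBot W] [WellFoundedLT W] [Om W]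

/-- the embedding of the sum of the two copies -/
noncomputable def emb (z : W → UnitAddCircle) (p : W × Bool) : (W → UnitAddCircle) × Bool :=
  (v z p.2 p.1, p.2)

theorem emb_injective {z : W → UnitAddCircle} (hz : Kr z) : Function.Injective (emb z) := by
  rintro ⟨β, b⟩ ⟨γ, c⟩ h
  have h2 : b = c := congrArg Prod.snd h
  subst h2
  have h1 : v z b β = v z b γ := congrArg Prod.fst h
  rw [v_injective hz b h1]

/-- the topology of the sum of the two copies -/
@[instance_reducible] noncomputable def top (z : W → UnitAddCircle) : TopologicalSpace (W × Bool) :=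
  TopologicalSpace.induced (emb z) inferInstance

theorem nbhd' (z : W → UnitAddCircle) {O : Set (W × Bool)} (hO : IsOpen[top z] O) {β : W}
    {b : Bool} (hy : (β, b) ∈ O) :
    ∃ (s : Finset W) (n : ℕ), ∀ γ, (∀ ξ ∈ s, ‖v z b γ ξ - v z b β ξ‖ < 1 / ((n : ℝ) + 1)) →
      (γ, b) ∈ O := by
  obtain ⟨V, hV, rfl⟩ := isOpen_induced_iff.1 hO
  have h1 : V ∈ 𝓝 (v z b β, b) := hV.mem_nhds hy
  obtain ⟨A, hA, B, hB, hAB⟩ := mem_nhds_prod_iff.1 h1
  rw [nhds_pi, Filter.mem_pi] at hA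
  obtain ⟨I, hI, t, ht, hsub⟩ := hA
  have h2 : ∀ ξ, ∃ ε > 0, Metric.ball (v z b β ξ) ε ⊆ t ξ := fun ξ => Metric.mem_nhds_iff.1 (ht ξ)
  choose ε hε hball using h2
  obtain ⟨n, hn⟩ : ∃ n : ℕ, ∀ ξ ∈ hI.toFinset, 1 / ((n : ℝ) + 1) < ε ξ := by
    have h3 : ∀ ξ, ∃ n : ℕ, 1 / ((n : ℝ) + 1) < ε ξ := fun ξ => exists_nat_one_div_lt (hε ξ)
    choose N hN using h3
    refine ⟨hI.toFinset.sup N, fun ξ hξ => lt_of_le_of_lt ?_ (hN ξ)⟩
    apply one_div_le_one_div_of_le (by positivity)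
    have : N ξ ≤ hI.toFinset.sup N := Finset.le_sup hξ
    have : (N ξ : ℝ) ≤ (hI.toFinset.sup N : ℕ) := by exact_mod_cast this
    linarith
  refine ⟨hI.toFinset, n, fun γ hγ => ?_⟩
  refine hAB ⟨hsub ?_, mem_of_mem_nhds hB⟩
  intro ξ hξ
  apply hball
  rw [Metric.mem_ball, dist_eq_norm]
  have hξ' : ξ ∈ hI.toFinset := by simpa using hξ
  exact (hγ ξ hξ').trans (hn ξ hξ')

theorem isOpen_ball (z : W → UnitAddCircle) (ξ : W) (x : UnitAddCircle) (ε : ℝ) :
    IsOpen[top z] {p : W × Bool | ‖v z p.2 p.1 ξ - x‖ < ε} := by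
  refine isOpen_induced_iff.2 ⟨{q : (W → UnitAddCircle) × Bool | ‖q.1 ξ - x‖ < ε}, ?_, rfl⟩
  have h : Continuous fun q : (W → UnitAddCircle) × Bool => ‖q.1 ξ - x‖ :=
    (((continuous_apply ξ).comp continuous_fst).sub continuous_const).norm
  exact isOpen_lt h continuous_const

theorem isOpen_copy (z : W → UnitAddCircle) (b : Bool) :
    IsOpen[top z] {p : W × Bool | p.2 = b} := by
  refine isOpen_induced_iff.2 ⟨{q : (W → UnitAddCircle) × Bool | q.2 = b}, ?_, rfl⟩
  exact (isOpen_discrete ({b} : Set Bool)).preimage continuous_snd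

theorem rothberger {z : W → UnitAddCircle} (hz : Kr z) :
    @IsRothberger (W × Bool) (top z) := by
  classical
  let _ : TopologicalSpace (W × Bool) := top z
  intro C hC
  have h1 : ∀ (n : ℕ) (p : W × Bool), ∃ (U : Set (W × Bool)) (s : Finset W) (k : ℕ), U ∈ C n ∧
      ∀ γ, (∀ ξ ∈ s, ‖v z p.2 γ ξ - v z p.2 p.1 ξ‖ < 1 / ((k : ℝ) + 1)) → (γ, p.2) ∈ U := by
    intro n p
    have h2 : p ∈ ⋃₀ C n := by rw [(hC n).2]; trivial
    obtain ⟨U, hU, hp⟩ := h2
    obtain ⟨s, k, hs⟩ := nbhd' z ((hC n).1 U hU) (β := p.1) (b := p.2) hp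
    exact ⟨U, s, k, hU, hs⟩
  choose U s k hU hs using h1
  have h2 : ∀ (n : ℕ) (b : Bool), ∃ Q : Set W, Q.Countable ∧ ∀ y, ∃ y' ∈ Q, ∀ ξ ∈ s n (y', b),
      ‖v z b y ξ - v z b y' ξ‖ < 1 / ((k n (y', b) : ℝ) + 1) := fun n b =>
    lind hz b (fun y => s n (y, b)) (fun y => k n (y, b))
  choose Q hQc hQ using h2
  obtain ⟨δ, hδ⟩ := Om.bdd (⋃ n, ⋃ b, ⋃ y ∈ Q n b, (↑(s n (y, b)) : Set W))
    (Set.countable_iUnion fun n => Set.countable_iUnion fun b =>
      (hQc n b).biUnion fun y _ => Finset.countable_toSet _)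
  -- the classes
  have hcl := (countable_cd (W := W) δ)
  have hcc : Countable ((Set.range fun β : W => cut δ fun ξ => cd ξ β) × Bool) := by
    have : Countable (Set.range fun β : W => cut δ fun ξ => cd ξ β) := hcl.to_subtype
    infer_instance
  have hne : Nonempty ((Set.range fun β : W => cut δ fun ξ => cd ξ β) × Bool) :=
    ⟨⟨⟨_, ⊥, rfl⟩, false⟩⟩
  obtain ⟨f, hf⟩ := exists_surjective_nat ((Set.range fun β : W => cut δ fun ξ => cd ξ β) × Bool)
  choose r hr using fun g : (Set.range fun β : W => cut δ fun ξ => cd ξ β) => g.2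
  choose q hq1 hq2 using hQ
  refine ⟨fun n => U n (q n (f n).2 (r (f n).1), (f n).2), fun n => hU _ _, ?_, ?_⟩
  · rintro _ ⟨n, rfl⟩
    exact (hC n).1 _ (hU _ _)
  · rw [Set.eq_univ_iff_forall]
    rintro ⟨β, b⟩
    obtain ⟨n, hn⟩ := hf (⟨_, β, rfl⟩, b)
    refine Set.mem_sUnion.2 ⟨_, ⟨n, rfl⟩, ?_⟩
    have e1 : (f n).2 = b := by rw [hn]
    have e2 : (cut δ fun ξ => cd ξ (r (f n).1)) = cut δ fun ξ => cd ξ β := by
      have h3 := hr (f n).1
      have h4 : ((f n).1 : W → ℕ) = cut δ fun ξ => cd ξ β := by rw [hn]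
      rw [← h4]
      exact h3
    change (β, b) ∈ U n (q n (f n).2 (r (f n).1), (f n).2)
    rw [e1]
    apply hs n (q n b (r (f n).1), b)
    intro ξ hξ
    have hξδ : ξ < δ := by
      apply hδ
      simp only [Set.mem_iUnion]
      exact ⟨n, b, q n b (r (f n).1), hq1 n b _, hξ⟩
    have e3 : cd ξ β = cd ξ (r (f n).1) := by
      have := congrFun e2 ξ
      simp only [cut, if_pos hξδ] at this
      exact this.symm
    rw [v_congr e3]
    exact hq2 n b (r (f n).1) ξ hξ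

theorem not_omega {z : W → UnitAddCircle} (hz : Kr z) :
    ¬ @IsOmegaRothberger (W × Bool) (top z) := by
  classical
  let _ : TopologicalSpace (W × Bool) := top z
  choose x ε hε hx using apart hz
  let Of : Finset W → Finset W → Set (W × Bool) := fun A B =>
    {p | p.2 = false} ∩ ⋃ α ∈ A, ⋂ β ∈ B,
      {p | ‖v z p.2 p.1 (x α β) - v z false α (x α β)‖ < ε α β}
  let Ot : Finset W → Finset W → Set (W × Bool) := fun A B =>
    {p | p.2 = true} ∩ ⋃ β ∈ B, ⋂ α ∈ A,
      {p | ‖v z p.2 p.1 (x α β) - v z true β (x α β)‖ < ε α β}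
  let O : Finset W → Finset W → Set (W × Bool) := fun A B => Of A B ∪ Ot A B
  have hO : ∀ A B, IsOpen (O A B) := by
    intro A B
    apply IsOpen.union
    · exact (isOpen_copy z false).inter
        (isOpen_biUnion fun α _ => isOpen_biInter_finset fun β _ => isOpen_ball z _ _ _)
    · exact (isOpen_copy z true).inter
        (isOpen_biUnion fun α _ => isOpen_biInter_finset fun β _ => isOpen_ball z _ _ _)
  have hb : ∀ A B, ∃ δ : W, ∀ γ, (γ, false) ∈ O A B → (γ, true) ∈ O A B → γ < δ := by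
    intro A B
    obtain ⟨δ, hδ⟩ := Om.bdd (⋃ α ∈ A, ⋃ β ∈ B, ({x α β} : Set W)) (by
      refine (Finset.countable_toSet A).biUnion fun α _ => (Finset.countable_toSet B).biUnion
        fun β _ => Set.countable_singleton _)
    refine ⟨δ, fun γ h1 h2 => ?_⟩
    have h1' : (γ, false) ∈ Of A B := by
      rcases h1 with h1 | h1
      · exact h1
      · exact absurd h1.1 (by simp)
    have h2' : (γ, true) ∈ Ot A B := by
      rcases h2 with h2 | h2
      · exact absurd h2.1 (by simp)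
      · exact h2
    obtain ⟨α, hα, h3⟩ := Set.mem_iUnion₂.1 h1'.2
    obtain ⟨β, hβ, h4⟩ := Set.mem_iUnion₂.1 h2'.2
    have h5 := Set.mem_iInter₂.1 h3 β hβ
    have h6 := Set.mem_iInter₂.1 h4 α hα
    refine (hx α β γ h5 h6).trans_lt (hδ _ ?_)
    exact Set.mem_iUnion₂.2 ⟨α, hα, Set.mem_iUnion₂.2 ⟨β, hβ, rfl⟩⟩
  let C : Set (Set (W × Bool)) := {U | ∃ A B, U = O A B}
  have hF : ∀ F : Set (W × Bool), F.Finite → ∃ U ∈ C, F ⊆ U := by
    intro F hF
    let A : Finset W := hF.toFinset.image Prod.fst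
    refine ⟨O A A, ⟨A, A, rfl⟩, ?_⟩
    rintro ⟨β, b⟩ hp
    have hβ : β ∈ A := Finset.mem_image.2 ⟨(β, b), by simpa using hp, rfl⟩
    cases b
    · left
      refine ⟨rfl, Set.mem_iUnion₂.2 ⟨β, hβ, Set.mem_iInter₂.2 fun γ _ => ?_⟩⟩
      change ‖v z false β (x β γ) - v z false β (x β γ)‖ < ε β γ
      rw [sub_self, norm_zero]
      exact hε β γ
    · right
      refine ⟨rfl, Set.mem_iUnion₂.2 ⟨β, hβ, Set.mem_iInter₂.2 fun γ _ => ?_⟩⟩
      change ‖v z true β (x γ β) - v z true β (x γ β)‖ < ε γ β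
      rw [sub_self, norm_zero]
      exact hε γ β
  have hC : IsOmegaCov (W × Bool) C := by
    refine ⟨⟨?_, ?_⟩, ?_, hF⟩
    · rintro _ ⟨A, B, rfl⟩
      exact hO A B
    · rw [Set.eq_univ_iff_forall]
      intro p
      obtain ⟨U, hU, hpU⟩ := hF {p} (Set.finite_singleton p)
      exact ⟨U, hU, hpU rfl⟩
    · rintro ⟨A, B, hAB⟩
      obtain ⟨δ, hδ⟩ := hb A B
      have h1 : (δ, false) ∈ O A B := hAB ▸ Set.mem_univ _
      have h2 : (δ, true) ∈ O A B := hAB ▸ Set.mem_univ _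
      exact lt_irrefl _ (hδ δ h1 h2)
  intro hR
  obtain ⟨U, hU, -, -, hUF⟩ := hR (fun _ => C) fun _ => hC
  choose A B hAB using hU
  choose d hd using hb
  obtain ⟨δ, hδ⟩ := Om.bdd (Set.range fun n => d (A n) (B n)) (Set.countable_range _)
  obtain ⟨_, ⟨n, rfl⟩, hn⟩ := hUF {(δ, false), (δ, true)} (by simp)
  rw [hAB n] at hn
  have h1 : δ < d (A n) (B n) := hd _ _ δ (hn (by simp)) (hn (by simp))
  exact lt_asymm h1 (hδ _ ⟨n, rfl⟩)

/-- There is a (Tychonoff) Rothberger space which is not ω-Rothberger. -/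
theorem result : ∃ (X : Type) (_ : TopologicalSpace X),
    T35Space X ∧ IsRothberger X ∧ ¬ IsOmegaRothberger X := by
  obtain ⟨W, i1, i2, i3, i4, hW⟩ := exists_W
  obtain ⟨z, hz1, hz2⟩ := kron W hW
  have hz : Kr z := ⟨hz1, hz2⟩
  refine ⟨W × Bool, top z, ?_, rothberger hz, not_omega hz⟩
  let _ : TopologicalSpace (W × Bool) := top z
  have h : IsEmbedding (emb z) := ⟨⟨rfl⟩, emb_injective hz⟩
  exact h.t35Space

end Pool.Agent.Results.MP_f9bcb0_lc.RothbergerNotOmega
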